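import Pool.Agent.Q296.Lp.Main

/-!
# Consensus times of the `ℓ^p`-energy dynamics are not comparable across `p`

On the complete graph with four vertices, started from the profile which is `1` at one vertex and
`0` at the others, for every `p₂ > 1` and every constant `C` there are `ε > 0` and `1 < p₁ < p₂`
with `E[τ_{p₂}(ε)] > C E[τ_{p₁}(ε)]` (and `E[τ_{p₁}(ε)] ≤ 192`).
-/

namespace Pool.Agent.Results.MP_7677b2_pr.NoComparison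

open Q296.Lp
open scoped ENNReal NNReal

theorem result :
    (⊤ : SimpleGraph (Fin 4)).Connected ∧
    ∃ f₀ : Fin 4 → ℝ, (∀ v, 0 ≤ f₀ v ∧ f₀ v ≤ 1) ∧
      ∀ (C : ℝ≥0) (p₂ : ℝ), 1 < p₂ → ∃ ε p₁ : ℝ, 0 < ε ∧ 1 < p₁ ∧ p₁ < p₂ ∧
        meanConsensus ⊤ p₁ f₀ ε ≤ 192 ∧
        (C : ℝ≥0∞) * meanConsensus ⊤ p₁ f₀ ε < meanConsensus ⊤ p₂ f₀ ε := by
  refine ⟨SimpleGraph.connected_top, init, init_mem, fun C p₂ hp₂ => ?_⟩
  obtain ⟨K, hK⟩ := exists_nat_ge (C * 192)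
  obtain ⟨ε, p₁, h1, h2, h3, h4, h5⟩ := main hp₂ K
  refine ⟨ε, p₁, h1, h2, h3, h4, lt_of_le_of_lt ?_ h5⟩
  calc (C : ℝ≥0∞) * meanConsensus ⊤ p₁ init ε ≤ (C : ℝ≥0∞) * 192 := mul_le_mul_right h4 _
    _ ≤ (K : ℝ≥0∞) := by exact_mod_cast hK

end Pool.Agent.Results.MP_7677b2_pr.NoComparison
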